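import Mathlib
import Pool.Agent.R890.ToricWqo

/-!
# Volumes of canonical threshold polytopes of toric tuples

For toric varieties and torus invariant divisors, of every dimension, the volumes of the canonical
threshold polytopes with coefficients in a DCC set satisfy the ascending chain condition.
-/

set_option autoImplicit false

namespace Pool.Agent.Results.MP_ae9b13_ag.ToricVolumes

open Pool.Agent.R890

/-- There is no sequence of toric tuples with coefficients in a DCC set whose canonical threshold
polytopes have strictly increasing volumes. -/
theorem result (d s : ℕ) (Γ : Set ℝ) (hΓ : IsDCC Γ) :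
    ¬ ∃ T : ℕ → CanTuple d s Γ,
      StrictMono fun k => MeasureTheory.volume (T k).polytope := by
  rintro ⟨T, hT⟩
  obtain ⟨k, l, hkl, h⟩ := exists_polytope_subset hΓ T
  exact absurd (MeasureTheory.measure_mono h) (not_le.2 (hT hkl))

end Pool.Agent.Results.MP_ae9b13_ag.ToricVolumes
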